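import Pool.Agent.Q46.SL.Tools
import Pool.Agent.Q46.SL.Additive

/-!
# Almost primes `η + x`, `η + x + 6` between consecutive cubes at the solutions of additive equations modulo primes

With `η = n ^ 3` and a prime `p ≤ 3 n ^ 2` (`η ≤ p ^ 2`) all `η + x`, `x < p - 6`, are between `n ^ 3` and `(n + 1) ^ 3`. We
look for `x` such that `η + x` and `η + x + 6` have at most `R` prime factors. The residue classes `E` can be chosen such that
`η + x + 2` is divisible by `5` and `η + x + 4` by `7` (with `m = 6`), so that no prime lies between.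

Let `p` be a large prime. In all boxes of volume at least `p ^ (n / 2 + 1 + ε)` the equation `F_1(x_1) + ... + F_n(x_n) = c` over the
field with `p` elements, each `F_j` a polynomial of degree `2 ≤ deg ≤ d`, an exponential function or a reciprocal, has many
solutions ALL of whose coordinates have the property. Here the property is: `η + x` and `η + x + 6` have at most `R` prime factors, all larger than `p ^ κ`.

In addition the numbers avoid arbitrary residue classes, at most `m` classes `E q` modulo each prime `q ≤ z`, as long as there is no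
local obstruction; `m = 0` is the case without classes. The exponent `κ`, the number `R` and the constant `cc` do not depend on the
classes.

Design and proof: helper46 (modules `Pool.Agent.Q46.SV.*`, `Pool.Agent.Q46.SL.*`): the vectors of the residues in question are
equidistributed modulo all small integers with a power saving, by bounds for exponential sums; the fundamental lemma of the
sieve is applied to the vectors.
-/

set_option autoImplicit false

namespace Pool.Agent.Results.MP_5628fe_nt.AdditiveEquations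

open Finset Polynomial
open Pool.Agent.Q46.SL hiding Almost

/-- `n` is not zero and has at most `R` prime factors (counted with multiplicity), all larger than `z` -/
def Almost (z : ℝ) (R : ℕ) (n : ℤ) : Prop :=
  n ≠ 0 ∧ n.natAbs.primeFactorsList.length ≤ R ∧ ∀ q : ℕ, q.Prime → (q : ℤ) ∣ n → z < q

/-- `x` is positive, `η + x` and `η + x + 6` have at most `R` prime factors, all larger than `z`, and `x` avoids the classes `E q`, `q ≤ z` -/
def Good (η : ℤ) (z : ℝ) (R : ℕ) (E : ℕ → Finset ℕ) (x : ℤ) : Prop :=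
  0 < x ∧ Almost z R (η + x) ∧ Almost z R (η + x + 6) ∧ ∀ q : ℕ, q.Prime → (q : ℝ) ≤ z → (x % q).toNat ∉ E q

/-- `E q` has at most `m` elements, and some residue `a` outside `E q` makes none of the numbers `η + x`, `η + x + 6` (`a` in the place of `x`) divisible by `q` -/
def Adm (η : ℤ) (m : ℕ) (E : ℕ → Finset ℕ) : Prop :=
  ∀ q : ℕ, q.Prime → (E q).card ≤ m ∧ ∃ a < q, a ∉ E q ∧ ¬ (q : ℤ) ∣ η + a ∧ ¬ (q : ℤ) ∣ η + a + 6

/-- the polynomials and the classes -/
noncomputable def sysE (η : ℤ) (m : ℕ) (E : ℕ → Finset ℕ) (hE : Adm η m E) : PE 2 m 2 where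
  f := ![C η + X, C η + X + C 6]
  E := E
  deg := by
    rw [Fin.sum_univ_two]
    simp only [Matrix.cons_val]
    have d0 : (C η + X : ℤ[X]).natDegree ≤ 1 := by compute_degree
    have d1 : (C η + X + C 6 : ℤ[X]).natDegree ≤ 1 := by compute_degree
    omega
  adm := by
    intro q hq
    obtain ⟨h1, a, ha, haE, h2, h3⟩ := hE q hq
    refine ⟨h1, a, ha, haE, fun j => ?_⟩
    fin_cases j
    · simpa using h2
    · simpa using h3

lemma good_of {η : ℤ} {m B : ℕ} {E : ℕ → Finset ℕ} (hE : Adm η m E) {κ M : ℝ} (hM : (8 : ℝ) ≤ M)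
    (hh : |(η : ℝ)| ≤ M ^ B) {x : ℤ} (h : Near (B + 1) (sysE η m E hE) κ M x) (hx : (x : ℝ) ≤ M) :
    Good η (M ^ κ) ⌊((B + 1 : ℕ) + (2 : ℕ) + 1 : ℝ) / κ⌋₊ E x := by
  obtain ⟨h0, h12⟩ := h
  obtain ⟨h1, h2⟩ := h12 (by
    intro j
    have hB : (1 : ℝ) ≤ M ^ B := one_le_pow₀ (by linarith)
    have hBM : (8 : ℝ) * M ^ B ≤ M ^ (B + 1) := by
      rw [pow_succ]
      nlinarith
    have k0 := hh
    fin_cases j
    · refine cb_mono (cb_add (cb_C η) (cb_X)) ?_
      push_cast
      norm_num
      linarith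
    · refine cb_mono (cb_add (cb_add (cb_C η) (cb_X)) (cb_C 6)) ?_
      push_cast
      norm_num
      linarith) hx
  refine ⟨h0, ?_, ?_, h2⟩
  · simpa [sysE, Almost, Pool.Agent.Q46.SL.Almost] using h1 0
  · simpa [sysE, Almost, Pool.Agent.Q46.SL.Almost] using h1 1

/-- the terms: polynomials `f(x)`, exponentials `c g^x`, reciprocals `c x⁻¹` -/
inductive Term (p : ℕ) : Type
  | poly (f : (ZMod p)[X]) : Term p
  | exp (c g : (ZMod p)ˣ) : Term p
  | inv (c : (ZMod p)ˣ) : Term p

/-- the period: `p`, or the multiplicative order of `g` -/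
noncomputable def Term.period {p : ℕ} : Term p → ℕ
  | .poly _ => p
  | .exp _ g => orderOf g
  | .inv _ => p

/-- the value at the natural number `x` (the reciprocal of `0` is `0`) -/
noncomputable def Term.value {p : ℕ} [Fact p.Prime] : Term p → ℕ → ZMod p
  | .poly f, x => f.eval (x : ZMod p)
  | .exp c g, x => (c : ZMod p) * (g : ZMod p) ^ x
  | .inv c, x => (c : ZMod p) * (x : ZMod p)⁻¹

/-- the degrees of the polynomials are between `2` and `d` -/
def Term.Ok {p : ℕ} (d : ℕ) : Term p → Prop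
  | .poly f => 2 ≤ f.natDegree ∧ f.natDegree ≤ d
  | .exp _ _ => True
  | .inv _ => True

/-- `η + x`, `η + x + 6` are almost primes for ALL coordinates `x` of many solutions of additive equations. -/
theorem result (B m : ℕ) (n d : ℕ) (ε : ℝ) (hε : 0 < ε) (hε1 : ε ≤ 1) :
    ∃ κ : ℝ, 0 < κ ∧ ∃ cc : ℝ, 0 < cc ∧ ∃ R p₀ : ℕ, ∀ p : ℕ, p₀ ≤ p → ∀ [Fact p.Prime], ∀ η : ℤ, |(η : ℝ)| ≤ (p : ℝ) ^ B → ∀ E : ℕ → Finset ℕ, Adm η m E → ∀ (F : Fin n → Term p), (∀ j, (F j).Ok d) → ∀ (c : ZMod p) (A N : Fin n → ℕ),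
      (∀ j, A j + N j ≤ (F j).period) → (∀ j, (p : ℝ) ^ ε ≤ N j) →
      (p : ℝ) ^ ((n : ℝ) / 2 + 1 + ε) ≤ ∏ j, (N j : ℝ) →
      ∃ G : Finset (Fin n → ℕ), cc * ((∏ j, (N j : ℝ)) / p) / Real.log p ^ (n * (m + 2)) ≤ G.card ∧
        ∀ x ∈ G, (∀ j, A j ≤ x j ∧ x j < A j + N j) ∧ ∑ j, (F j).value (x j) = c ∧
          ∀ j, Good η ((p : ℝ) ^ κ) R E (x j) := by
  classical
  have hK : (1 : ℝ) ≤ d + 3 := by
    have : (0 : ℝ) ≤ d := Nat.cast_nonneg _
    linarith
  obtain ⟨κ, hκ, cc, hcc, p₀, h⟩ := Pool.Agent.Q46.SL.additive (Near (B + 1) : PE 2 m 2 → ℝ → ℝ → ℤ → Prop)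
    (lg (m + 2)) (fun r _ => csN 2 m 2 (B + 1) r) n (d + 3) hK ε hε hε1
  refine ⟨κ, hκ, cc, hcc, ⌊((B + 1 : ℕ) + (2 : ℕ) + 1 : ℝ) / κ⌋₊, max 8 (max p₀ (d + 1)), ?_⟩
  intro p hp _ η t0 E hE F hF c A N hA hN hP
  have hpr : (8 : ℝ) ≤ p := by exact_mod_cast (le_max_left _ _).trans hp
  have hp0 : p₀ ≤ p := ((le_max_left _ _).trans (le_max_right _ _)).trans hp
  have hpD : d < p := lt_of_lt_of_le (Nat.lt_succ_self d) (((le_max_right _ _).trans (le_max_right _ _)).trans hp)
  have hpp : p.Prime := Fact.out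
  have hs0 : 0 ≤ Real.sqrt p := Real.sqrt_nonneg _
  have hD0 : (0 : ℝ) ≤ d := Nat.cast_nonneg _
  have hper : ∀ j, (F j).period ≤ p := fun j => by
      cases hj : F j with
      | poly f => exact le_rfl
      | exp c g => exact ord_le' g
      | inv c => exact le_rfl
  have key := h p hp0 (sysE η m E hE) (fun j => (F j).period) (fun j => (F j).value) c
    (fun j => by
      cases hj : F j with
      | poly f => exact hpp.one_lt.le
      | exp c g => exact orderOf_pos g
      | inv c => exact hpp.one_lt.le)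
    hper
    (fun j h hh t ht => by
      have hok := hF j
      cases hj : F j with
      | poly f =>
        rw [hj] at hok hh
        obtain ⟨h2, h3⟩ := hok
        have h4 := Pool.Agent.Q46.MH.SS_poly f h2 (lt_of_le_of_lt h3 hpD) h hh ht
        have h5 : (f.natDegree : ℝ) ≤ d := by exact_mod_cast h3
        refine le_trans h4 (mul_le_mul_of_nonneg_right (by linarith) hs0)
      | exp a g =>
        have h4 := Pool.Agent.Q46.MH.SS_exp a g h ht
        have h5 : (fun x : ℕ => ((a * g ^ x : (ZMod p)ˣ) : ZMod p)) = (Term.exp a g : Term p).value := by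
          funext x
          show ((a * g ^ x : (ZMod p)ˣ) : ZMod p) = (a : ZMod p) * (g : ZMod p) ^ x
          rw [Units.val_mul, Units.val_pow_eq_pow_val]
        rw [h5] at h4
        refine le_trans h4 ?_
        nlinarith
      | inv a =>
        rw [hj] at hh
        have h4 := Pool.Agent.Q46.MH.SS_inv a h hh ht
        refine le_trans h4 (mul_le_mul_of_nonneg_right (by linarith) hs0))
    A N hA hN hP
  refine ⟨_, le_trans (cnt le_rfl (div_nonneg (prod_nonneg fun _ _ => Nat.cast_nonneg _) (Nat.cast_nonneg _))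
    (log0 p) _ _) key, ?_⟩
  intro x hx
  unfold Pool.Agent.Q46.SL.goodR Pool.Agent.Q46.MH.sol at hx
  rw [mem_filter, mem_filter] at hx
  refine ⟨fun j => mem_Ico.1 (hx.2.1 j), hx.1.2, fun j => good_of hE hpr t0 (hx.2.2 j) ?_⟩
  have h6 : A j ≤ x j ∧ x j < A j + N j := mem_Ico.1 (hx.2.1 j)
  have h7 := hA j
  have h8 := hper j
  exact_mod_cast (by omega : x j ≤ p)

end Pool.Agent.Results.MP_5628fe_nt.AdditiveEquations
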