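import Pool.Agent.Q25.Arb3

set_option autoImplicit false

/-!
# Narrow progressions in ARBITRARY sets of pairs of sexy primes between consecutive cubes

Whatever the set `A` of primes `p` for which the next prime is `p + 6`, all elements of `A` between `n ^ 3` and `(n + 1) ^ 3`, with
at most `ε n ^ 2 / (log n) ^ 2` exceptions (an arbitrarily small proportion of the expected number), are terms of
`l`-term arithmetic progressions of elements of `A` between `n ^ 3` and `(n + 1) ^ 3` whose difference is at most a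
fixed power of `log n`. The same holds for sets of `m` for which `m` and `m + 6` have no prime factor up to `m ^ (1 / r)`;
and of the CONSECUTIVE ones among these there are at least `κ n ^ 2 / (log n) ^ 2` between `n ^ 3` and
`(n + 1) ^ 3`, even with at most `r` prime factors.
-/

namespace Pool.Agent.Results.MP_5628fe_nt.NarrowProgressions

open Finset Filter Pool.Agent.Q25.Arb

/-- `(p, p + 6)` is a pair of sexy primes: consecutive primes differing by `6` -/
def Sexy (p : ℕ) : Prop :=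
  p.Prime ∧ (p + 6).Prime ∧ ∀ m : ℕ, 0 < m → m < 6 → ¬ (p + m).Prime

lemma pr (p : ℕ) (g : Sexy p) : ∀ h ∈ ({0, 6} : Finset ℕ), (p + h).Prime := by
  intro h hh
  rw [mem_insert, mem_singleton] at hh
  rcases hh with rfl | rfl
  · exact g.1
  · exact g.2.1

/-- **Narrow progressions in arbitrary sets of pairs of sexy primes between consecutive cubes.** -/
theorem result :
    (∀ l : ℕ, 2 ≤ l → ∀ ε : ℝ, 0 < ε → ∃ B : ℕ, ∀ᶠ n : ℕ in atTop, ∀ A : Set ℕ, (∀ p ∈ A, Sexy p) →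
      NearlyAll A l (Real.log n ^ B) (n ^ 3) ((n + 1) ^ 3) (ε * (n ^ 2 / Real.log n ^ 2))) ∧
    ∃ r₀ : ℕ, ∀ r : ℕ, r₀ ≤ r →
      (∀ l : ℕ, 2 ≤ l → ∀ ε : ℝ, 0 < ε → ∃ B : ℕ, ∀ᶠ n : ℕ in atTop, ∀ A : Set ℕ,
        (∀ m ∈ A, RoughPattern ({0, 6} : Finset ℕ) r m) →
          NearlyAll A l (Real.log n ^ B) (n ^ 3) ((n + 1) ^ 3) (ε * (n ^ 2 / Real.log n ^ 2))) ∧
      ∃ κ : ℝ, 0 < κ ∧ ∀ᶠ n : ℕ in atTop, κ * (n ^ 2 / Real.log n ^ 2) ≤
        (N {m | ConsecutiveRough ({0, 6} : Finset ℕ) r m ∧ ∀ h ∈ ({0, 6} : Finset ℕ), (m + h).primeFactorsList.length ≤ r}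
          (n ^ 3) ((n + 1) ^ 3) : ℝ) := by
  refine ⟨fun l hl ε hε => ?_, ?_⟩
  · obtain ⟨B, hB⟩ := narrow_pow _ ⟨0, mem_insert_self 0 {6}⟩ (adm_pair 6 (by decide)) 2 (card_pair (by norm_num)) 3 (by norm_num) l hl ε hε
    refine ⟨B, ?_⟩
    filter_upwards [hB] with n hn A hA
    exact hn A (fun m hm => pr _ (hA m hm))
  · obtain ⟨r₀, hr⟩ := rough_pow _ ⟨0, mem_insert_self 0 {6}⟩ (adm_pair 6 (by decide)) 2 (card_pair (by norm_num)) 3 (by norm_num)
    exact ⟨r₀, fun r h => ⟨(hr r h).1, (hr r h).2.2⟩⟩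

end Pool.Agent.Results.MP_5628fe_nt.NarrowProgressions
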