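import Pool.Agent.Q25.Arb3

set_option autoImplicit false

/-!
# Regular points of ARBITRARY sets of pairs of sexy primes between consecutive cubes

Let `A` be an ARBITRARY set of primes `p` for which the next prime is `p + 6` (for example the set of all of them). For large `n`, all but
`ε n ^ 2 / (log n) ^ 2` of the elements of `A` between `n ^ 3` and `(n + 1) ^ 3` are regular points of `A`:
the numbers of elements of `A` in ALL intervals around the point of length between `(log n ^ 3) ^ 2 / c` and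
`(n + 1) ^ 3 - n ^ 3` have the conjectured order of magnitude, and `A` has constant density up to `δ` on both sides
of the point at all but `B (ε, δ)` dyadic scales. The same holds for sets of `m` for which `m` and `m + 6` have no prime factor up to `m ^ (1 / r)`;
and of the CONSECUTIVE ones among these there are at least `κ n ^ 2 / (log n) ^ 2` between `n ^ 3` and
`(n + 1) ^ 3`, even with at most `r` prime factors.
-/

namespace Pool.Agent.Results.MP_5628fe_nt.RegularPoints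

open Finset Filter Pool.Agent.Q25.Arb

/-- `(p, p + 6)` is a pair of sexy primes: consecutive primes differing by `6` -/
def Sexy (p : ℕ) : Prop :=
  p.Prime ∧ (p + 6).Prime ∧ ∀ m : ℕ, 0 < m → m < 6 → ¬ (p + m).Prime

lemma pr (p : ℕ) (g : Sexy p) : ∀ h ∈ ({0, 6} : Finset ℕ), (p + h).Prime := by
  intro h hh
  rw [mem_insert, mem_singleton] at hh
  rcases hh with rfl | rfl
  · exact g.1
  · exact g.2.1

/-- **Regular points of arbitrary sets of pairs of sexy primes between consecutive cubes.** -/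
theorem result :
    (∀ ε : ℝ, 0 < ε → ∃ c : ℝ, 0 < c ∧ ∀ δ : ℝ, 0 < δ → ∃ B : ℕ, ∀ᶠ n : ℕ in atTop, ∀ A : Set ℕ,
      (∀ p ∈ A, Sexy p) →
        (N (Irregular A 2 c δ B (n ^ 3) ((n + 1) ^ 3 - n ^ 3)) (n ^ 3) ((n + 1) ^ 3) : ℝ) ≤
          ε * (n ^ 2 / Real.log n ^ 2)) ∧
    ∃ r₀ : ℕ, ∀ r : ℕ, r₀ ≤ r →
      (∀ ε : ℝ, 0 < ε → ∃ c : ℝ, 0 < c ∧ ∀ δ : ℝ, 0 < δ → ∃ B : ℕ, ∀ᶠ n : ℕ in atTop, ∀ A : Set ℕ,
        (∀ m ∈ A, RoughPattern ({0, 6} : Finset ℕ) r m) →
          (N (Irregular A 2 c δ B (n ^ 3) ((n + 1) ^ 3 - n ^ 3)) (n ^ 3) ((n + 1) ^ 3) : ℝ) ≤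
            ε * (n ^ 2 / Real.log n ^ 2)) ∧
      ∃ κ : ℝ, 0 < κ ∧ ∀ᶠ n : ℕ in atTop, κ * (n ^ 2 / Real.log n ^ 2) ≤
        (N {m | ConsecutiveRough ({0, 6} : Finset ℕ) r m ∧ ∀ h ∈ ({0, 6} : Finset ℕ), (m + h).primeFactorsList.length ≤ r}
          (n ^ 3) ((n + 1) ^ 3) : ℝ) := by
  refine ⟨fun ε hε => ?_, ?_⟩
  · obtain ⟨c, hc, h⟩ := regular_pow _ ⟨0, mem_insert_self 0 {6}⟩ (adm_pair 6 (by decide)) 2 (card_pair (by norm_num)) 3 (by norm_num) ε hε
    refine ⟨c, hc, fun δ hδ => ?_⟩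
    obtain ⟨B, hB⟩ := h δ hδ
    refine ⟨B, ?_⟩
    filter_upwards [hB] with n hn A hA
    exact hn A (fun m hm => pr _ (hA m hm))
  · obtain ⟨r₀, hr⟩ := rough_pow _ ⟨0, mem_insert_self 0 {6}⟩ (adm_pair 6 (by decide)) 2 (card_pair (by norm_num)) 3 (by norm_num)
    exact ⟨r₀, fun r h => (hr r h).2⟩

end Pool.Agent.Results.MP_5628fe_nt.RegularPoints
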