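import Pool.Agent.Q48.RD.Pat

/-!
# Isolated sexy pairs of almost primes between consecutive cubes, in short intervals and sparse digit sets

We consider the `m` between `n ^ 3` and `(n + 1) ^ 3` for which `m` and `m + 6` are almost primes and no other integer at distance at
most `L` from `m` is a prime (for `L ≥ 6` no integer strictly between `m` and `m + 6` is a prime): the analogue, for almost primes, of a
pair of consecutive primes with difference `6`, with the additional property that no other prime is near to it.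

Let `g ≥ 2` be a base and `K` a large number of digits. For every `i < K` let `A i` be an arbitrary set of digits, such that the number
`|A 0| ⋯ |A (K - 1)|` of the integers `t < g ^ K` whose `i`-th digit belongs to `A i` for all `i < K` is at least `exp (- c K) g ^ K`
(`Rich`). Let `n` and `m₀ ≥ 1` be arbitrary with `(n + 1) ^ 3 ≤ g ^ (E K)` and `n ^ 3 + m₀ + g ^ K + 6 ≤ (n + 1) ^ 3`, so that the length
`g ^ K` of the interval of the `m = n ^ 3 + m₀ + t` may be an arbitrarily small power of `n`.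

At least `κ |A 0| ⋯ |A (K - 1)| / K ^ 2` of the `m = n ^ 3 + m₀ + t` with these `t` have the property above, the almost primes having at
most `r` prime factors, all larger than `g ^ (K / r)`, unless there is an obvious obstruction (no digit `d` in `A 0` such that the two
numbers for `t = d` are prime to `g`); and for at most `C |A 0| ⋯ |A (K - 1)| / K ^ 2` of them `m` and `m + 6` are primes. The constants
do not depend on `n`, `m₀` and the sets `A i`.
-/

set_option autoImplicit false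

namespace Pool.Agent.Results.MP_5628fe_nt.SexyAlmostPrimes

open Filter Finset
open Pool.Agent.Q315.RD Pool.Agent.Q48.RD

/-- `m` and `m + 6` are almost primes (at most `r` prime factors `p`, all with `p ^ r > y`), and no other integer at distance at most
`L` from `m` is a prime. -/
def Sexy (L y r m : ℕ) : Prop :=
  AlmostPrime y r m ∧ AlmostPrime y r (m + 6) ∧ ∀ l : ℕ, m ≤ l + L → l ≤ m + L → l ≠ m → l ≠ m + 6 → ¬ l.Prime

lemma adm (p : ℕ) (hp : p.Prime) : ∃ n : ℕ, ∀ j, ¬ p ∣ n + (![0, 6] : Fin 2 → ℕ) j := by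
  rcases Nat.lt_or_ge 2 p with h | h
  · obtain ⟨n, hn⟩ := adm_big (fun _ : Fin 2 => 1) (![0, 6] : Fin 2 → ℕ) hp h (fun _ h => hp.one_lt.ne' (Nat.dvd_one.1 h))
    exact ⟨n, fun j => by simpa only [one_mul] using hn j⟩
  · have h2 : p = 2 := by have := hp.two_le; omega
    subst h2
    exact ⟨1, fun j => by fin_cases j <;> norm_num⟩

/-- **Isolated sexy pairs of almost primes between consecutive cubes, in short intervals and sparse digit sets.** -/
theorem result (L E : ℕ) :
    ∃ c : ℝ, 0 < c ∧ ∃ r₀ : ℕ, 2 ≤ r₀ ∧ ∀ r : ℕ, r₀ ≤ r → ∀ g : ℕ, 2 ≤ g → ∃ κ C : ℝ, 0 < κ ∧ 0 < C ∧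
      ∀ᶠ K : ℕ in atTop, ∀ n m₀ : ℕ, (n + 1) ^ 3 ≤ g ^ (E * K) → 1 ≤ m₀ → n ^ 3 + m₀ + g ^ K + 6 ≤ (n + 1) ^ 3 →
        ∀ A : ℕ → Finset ℕ, Rich c g K A →
          ((∃ d ∈ A 0, (n ^ 3 + m₀ + d).Coprime g ∧ (n ^ 3 + m₀ + d + 6).Coprime g) →
            κ * choices K A / (K : ℝ) ^ 2 ≤ count g K A fun t =>
              n ^ 3 < n ^ 3 + m₀ + t ∧ n ^ 3 + m₀ + t + 6 < (n + 1) ^ 3 ∧ Sexy L (g ^ K) r (n ^ 3 + m₀ + t)) ∧
          (count g K A (fun t => (n ^ 3 + m₀ + t).Prime ∧ (n ^ 3 + m₀ + t + 6).Prime) : ℝ) ≤ C * choices K A / (K : ℝ) ^ 2 := by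
  classical
  obtain ⟨c, hc, r₀, hr₀, h1⟩ := pattern (![0, 6] : Fin 2 → ℕ) (by
    intro i j hij
    fin_cases i <;> fin_cases j <;> simp at hij ⊢) adm L E
  refine ⟨c, hc, r₀, hr₀, fun r hr g hg => ?_⟩
  obtain ⟨κ, C, hκ, hC, h2⟩ := h1 r hr g hg
  refine ⟨κ, C, hκ, hC, ?_⟩
  filter_upwards [h2, eventually_ge_atTop (L + 10)] with K hK hKL
  intro n m₀ hnE hm₀ hm A hA
  have hKg : K < g ^ K := Nat.lt_pow_self (by omega)
  -- `n ^ 3` is larger than `L`, since the interval between the cubes is long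
  have hn : L ≤ n ^ 3 := by
    rcases Nat.lt_or_ge n 4 with h4 | h4
    · exfalso
      have h5 : (n + 1) ^ 3 ≤ 4 ^ 3 := Nat.pow_le_pow_left (by omega) 3
      have h6 : 2 ^ 10 ≤ g ^ K := (Nat.pow_le_pow_left hg 10).trans (Nat.pow_le_pow_right (by omega) (by omega))
      omega
    · have h5 : (n + 1) ^ 3 ≤ n ^ 3 + n ^ 3 := by
        obtain ⟨q, rfl⟩ : ∃ q, n = q + 4 := ⟨n - 4, by omega⟩
        have : (q + 4) ^ 3 + (q + 4) ^ 3 = (q + 4 + 1) ^ 3 + (q ^ 3 + 9 * q ^ 2 + 21 * q + 3) := by ring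
        omega
      omega
  have h3 := hK (n ^ 3 + m₀) (by omega) ((by omega : n ^ 3 + m₀ ≤ (n + 1) ^ 3).trans hnE) A hA
  obtain ⟨e1, e2⟩ := h3
  constructor
  · rintro ⟨d, hd, h4, h5⟩
    refine (e1 ⟨d, hd, fun j => ?_⟩).trans (Nat.cast_le.2 (count_mono fun t ht hP => ?_))
    · fin_cases j
      · exact h4
      · exact h5
    · refine ⟨by omega, by omega, hP.1 0, hP.1 1, fun l hl1 hl2 hl3 hl4 => hP.2 l hl1 hl2 fun j => ?_⟩
      fin_cases j
      · exact hl3
      · exact hl4
  · refine le_trans (Nat.cast_le.2 (count_mono fun t ht hP j => ?_)) e2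
    fin_cases j
    · exact hP.1
    · exact hP.2

end Pool.Agent.Results.MP_5628fe_nt.SexyAlmostPrimes
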